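import Pool.Agent.helper24.ISL.Spec

/-! # Project ISL (MP_512a69), row ROT -/

set_option autoImplicit false

namespace Pool.Agent.ISL

open Matrix Filter Topology

lemma ROT_int (p : ℕ) (hp : 0 < p) (ω : ℝ) (h : 2 * Real.cos ω = 1 / (p : ℝ)) : ∀ j : ℕ,
    (∃ k : ℤ, (p : ℝ) ^ (j + 1) * (2 * Real.cos ((j + 1 : ℕ) * ω)) = 1 + p * k) ∧
    (∃ k : ℤ, (p : ℝ) ^ (j + 2) * (2 * Real.cos ((j + 2 : ℕ) * ω)) = 1 + p * k) := by
  have hp' : (p : ℝ) ≠ 0 := by exact_mod_cast hp.ne'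
  have h1 : (p : ℝ) * (2 * Real.cos ω) = 1 := by rw [h]; field_simp
  have hrec : ∀ m : ℕ, 2 * Real.cos ((m + 2 : ℕ) * ω) =
      (2 * Real.cos ω) * (2 * Real.cos ((m + 1 : ℕ) * ω)) - 2 * Real.cos ((m : ℕ) * ω) := by
    intro m
    have e1 : ((m + 2 : ℕ) : ℝ) * ω = (m + 1 : ℕ) * ω + ω := by push_cast; ring
    have e2 : ((m : ℕ) : ℝ) * ω = (m + 1 : ℕ) * ω - ω := by push_cast; ring
    rw [e1, e2, Real.cos_add, Real.cos_sub]
    ring
  intro j
  induction j with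
  | zero =>
    refine ⟨⟨0, ?_⟩, ⟨-2 * p, ?_⟩⟩
    · simpa using h1
    · rw [zero_add, hrec 0]
      simp only [Nat.cast_zero, zero_mul, Real.cos_zero, zero_add, Nat.cast_one, one_mul]
      push_cast
      linear_combination ((p : ℝ) * (2 * Real.cos ω) + 1) * h1
  | succ j ih =>
    obtain ⟨⟨k1, hk1⟩, ⟨k2, hk2⟩⟩ := ih
    refine ⟨⟨k2, hk2⟩, ⟨k2 - p * (1 + p * k1), ?_⟩⟩
    rw [hrec (j + 1), show j + 1 + 1 = j + 2 from rfl]
    push_cast at hk1 hk2 ⊢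
    linear_combination (p : ℝ) * (2 * Real.cos ω) * hk2 + (1 + p * k2) * h1 - (p : ℝ) ^ 2 * hk1

lemma ROT_irr (p : ℕ) (hp : p.Prime) (ω : ℝ) (h : 2 * Real.cos ω = 1 / (p : ℝ)) (r : ℕ)
    (hr : 0 < r) : Irrational ((r : ℝ) * ω / (2 * Real.pi)) := by
  rintro ⟨q, hq⟩
  have hpi : (2 * Real.pi) ≠ 0 := by positivity
  have hden : (q.den : ℝ) ≠ 0 := by exact_mod_cast q.den_ne_zero
  have h1 : ((q.den * r : ℕ) : ℝ) * ω = q.num * (2 * Real.pi) := by
    have h2 : (q : ℝ) = q.num / q.den := Rat.cast_def q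
    rw [h2, eq_div_iff hpi] at hq
    have h3 : (q.num : ℝ) / q.den * q.den = q.num := div_mul_cancel₀ _ hden
    push_cast
    calc (q.den : ℝ) * r * ω = q.den * (r * ω) := by ring
      _ = q.den * (q.num / q.den * (2 * Real.pi)) := by rw [hq]
      _ = (q.num / q.den * q.den) * (2 * Real.pi) := by ring
      _ = q.num * (2 * Real.pi) := by rw [h3]
  obtain ⟨m, hm⟩ : ∃ m : ℕ, q.den * r = m + 1 :=
    Nat.exists_eq_add_one_of_ne_zero (Nat.mul_ne_zero q.den_ne_zero hr.ne')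
  rw [hm] at h1
  obtain ⟨⟨k, hk⟩, _⟩ := ROT_int p hp.pos ω h m
  rw [h1, Real.cos_int_mul_two_pi] at hk
  have h4 : ((p : ℤ) ^ (m + 1) * 2 : ℤ) = 1 + p * k := by
    have : (((p : ℤ) ^ (m + 1) * 2 : ℤ) : ℝ) = ((1 + p * k : ℤ) : ℝ) := by
      push_cast
      linarith
    exact_mod_cast this
  have h5 : (p : ℤ) ∣ 1 := ⟨p ^ m * 2 - k, by
    have : (p : ℤ) ^ (m + 1) = p * p ^ m := pow_succ' _ _
    rw [this] at h4
    linarith⟩
  have h6 := Int.natCast_dvd_natCast.1 (by simpa using h5 : ((p : ℕ) : ℤ) ∣ ((1 : ℕ) : ℤ))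
  exact hp.one_lt.ne' (Nat.dvd_one.1 h6)

theorem ROT : ROT_stmt := by
  intro p hp
  have hp2 : (2 : ℝ) ≤ p := by exact_mod_cast hp.two_le
  have hx0 : 0 < 1 / (2 * (p : ℝ)) := by positivity
  have hx1 : 1 / (2 * (p : ℝ)) ≤ 1 / 4 := by
    apply one_div_le_one_div_of_le
    · norm_num
    · linarith
  have hcos : 2 * Real.cos (Real.arccos (1 / (2 * (p : ℝ)))) = 1 / (p : ℝ) := by
    rw [Real.cos_arccos (by linarith) (by linarith)]
    field_simp
  refine ⟨Real.arccos (1 / (2 * (p : ℝ))), hcos, ?_, ?_⟩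
  · rw [Real.sin_arccos]
    apply Real.sqrt_pos.2
    nlinarith
  · intro r hr s ε hε
    generalize Real.arccos (1 / (2 * (p : ℝ))) = ω at hcos
    have hirr := ROT_irr p hp ω hcos r hr
    have : Fact (0 < 2 * Real.pi) := ⟨by positivity⟩
    have hd := AddCircle.denseRange_zsmul_coe_iff.2 hirr
    have hd2 := denseRange_zsmul_iff_nsmul.1 hd
    let O : Set Real.Angle := {θ | |θ.sin - Real.sin s| < ε ∧ |θ.cos - Real.cos s| < ε}
    have hO : IsOpen O := by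
      apply IsOpen.inter
      · exact isOpen_lt (Real.Angle.continuous_sin.sub continuous_const).abs continuous_const
      · exact isOpen_lt (Real.Angle.continuous_cos.sub continuous_const).abs continuous_const
    have hne : O.Nonempty := ⟨(s : Real.Angle), by simp [O, hε]⟩
    obtain ⟨θ, hθ, ⟨j, rfl⟩⟩ := hd2.inter_open_nonempty O hO hne
    refine ⟨j, ?_⟩
    have e1 : ((j • ((r : ℝ) * ω) : ℝ) : Real.Angle) = j • (((r : ℝ) * ω : ℝ) : Real.Angle) :=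
      Real.Angle.coe_nsmul _ _
    have e2 : ((r * j : ℕ) : ℝ) * ω = j • ((r : ℝ) * ω) := by
      rw [nsmul_eq_mul]
      push_cast
      ring
    have h3 : |(j • (((r : ℝ) * ω : ℝ) : Real.Angle)).sin - Real.sin s| < ε ∧
      |(j • (((r : ℝ) * ω : ℝ) : Real.Angle)).cos - Real.cos s| < ε := hθ
    rw [← e1, Real.Angle.sin_coe, Real.Angle.cos_coe] at h3
    rw [e2]
    exact h3

end Pool.Agent.ISL
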